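import Pool.Agent.W279.TriS.Final
import Pool.Agent.W335.SA.Recur
import Pool.Agent.W12.SA.Crt
import Pool.Agent.W101.TriS.Scale
import Pool.Agent.W515.SA.Chart
import Pool.Agent.W554.SA.Padic
import Pool.Agent.W347.SA.Rel
import Pool.Agent.W125.SA.Close
import Pool.Agent.W493.SA.Seq
import Pool.Agent.W613.SAReal

/-!
# Weak approximation near the rational points of the triquadratic surfaces (helper279)

`X ⊂ P¹ × P¹ × P¹` is the surface `F = 0`, where `F` is a polynomial of tridegree `(2,2,2)` over a
number field `K`; if it is smooth, it is a K3 surface.  A point of the product of three projective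
lines is given by three nonzero vectors.

If `X` has finitely many singular points and contains no fibre of the three projections to
`P¹ × P¹`, then there is a finite set `T` of rational points such that every rational point `P`
outside `T` is an interior point of the closure of `X(K)` in the product
`X(ℝ) × X(ℚ_{p₁}) × ⋯ × X(ℚ_{pₙ})`, for all distinct primes `p₁, …, pₙ` and all embeddings of `K`
into `ℝ, ℚ_{p₁}, …, ℚ_{pₙ}`; for `K = ℚ` this covers all finite sets of places.
-/

set_option autoImplicit false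

namespace Pool.Agent.Results.MP_ed3816_nt.WeakApproxTriquadratic

open MvPolynomial Pool.Agent.W279.Tri Pool.Agent.W279.TriR Pool.Agent.W279.TriS

universe u

/-- The `K`-rational points of `F = 0` in the product over the real place `σ₀` and the places
`σ i` (`i : ι`): all families of representatives, over the completions, of the images of one
`K`-rational point of the surface. -/
def ratPoints {K : Type u} [Field K] (F : MvPolynomial (Fin 3 × Fin 2) K) {ι : Type} (p : ι → ℕ)
    [∀ i, Fact (p i).Prime] (σ₀ : K →+* ℝ) (σ : ∀ i, K →+* ℚ_[p i]) :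
    Set ((Fin 3 → Fin 2 → ℝ) × ∀ i, Fin 3 → Fin 2 → ℚ_[p i]) :=
  {x | ∃ y : Fin 3 → Fin 2 → K, (∀ j, y j ≠ 0) ∧ eval (fun r => y r.1 r.2) F = 0 ∧
    (∃ d : Fin 3 → ℝ, (∀ j, d j ≠ 0) ∧ x.1 = fun j a => d j * σ₀ (y j a)) ∧
    ∀ i, ∃ d : Fin 3 → ℚ_[p i], (∀ j, d j ≠ 0) ∧ x.2 i = fun j a => d j * σ i (y j a)}

/-- The same without the real place. -/
def ratPoints' {K : Type u} [Field K] (F : MvPolynomial (Fin 3 × Fin 2) K) {ι : Type} (p : ι → ℕ)
    [∀ i, Fact (p i).Prime] (σ : ∀ i, K →+* ℚ_[p i]) : Set (∀ i, Fin 3 → Fin 2 → ℚ_[p i]) :=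
  {x | ∃ y : Fin 3 → Fin 2 → K, (∀ j, y j ≠ 0) ∧ eval (fun r => y r.1 r.2) F = 0 ∧
    ∀ i, ∃ d : Fin 3 → ℚ_[p i], (∀ j, d j ≠ 0) ∧ x i = fun j a => d j * σ i (y j a)}

/-- **Weak approximation near the rational points of the triquadratic surfaces.** -/
theorem result :
    ∀ (K : Type u) [Field K] [NumberField K] (F : MvPolynomial (Fin 3 × Fin 2) K),
      -- `F` has the tridegree `(2,2,2)`
      (∀ m ∈ F.support, ∀ i : Fin 3, m (i, 0) + m (i, 1) = 2) →
      -- no fibre of the projections to two of the factors lies on the surface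
      (∀ (i : Fin 3) (p : Fin 3 → Fin 2 → AlgebraicClosure K), (∀ j, p j ≠ 0) →
        ∃ w : Fin 2 → AlgebraicClosure K,
          aeval (fun q : Fin 3 × Fin 2 => Function.update p i w q.1 q.2) F ≠ 0) →
      -- the surface has only finitely many singular points
      (∃ S : Set (Fin 3 → Fin 2 → AlgebraicClosure K), S.Finite ∧
        ∀ p : Fin 3 → Fin 2 → AlgebraicClosure K, (∀ i, p i ≠ 0) →
          (∀ q : Fin 3 × Fin 2, aeval (fun r : Fin 3 × Fin 2 => p r.1 r.2) (pderiv q F) = 0) →
          ∃ s ∈ S, ∀ i, ∃ t : AlgebraicClosure K, p i = t • s i) →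
      -- there is a finite set `T` of rational points such that for every rational point `P` of
      -- the surface, not in `T`,
      ∃ T : Set (Fin 3 → Fin 2 → K), T.Finite ∧
        (∀ P ∈ T, (∀ j, P j ≠ 0) ∧ eval (fun r => P r.1 r.2) F = 0) ∧
        ∀ P : Fin 3 → Fin 2 → K, (∀ j, P j ≠ 0) → eval (fun r => P r.1 r.2) F = 0 →
          (∃ Q ∈ T, ∀ j, ∃ t : K, t ≠ 0 ∧ P j = t • Q j) ∨
          -- and for all finite families of distinct primes `p i` and embeddings into `ℚ_[p i]`,
          ∀ (ι : Type) [Finite ι] (p : ι → ℕ) [∀ i, Fact (p i).Prime], Function.Injective p →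
            ∀ σ : ∀ i, K →+* ℚ_[p i],
              -- the closure of the rational points contains a neighbourhood of `P` in the
              -- product of the `X(ℚ_[p i])`,
              (∃ U ∈ nhds (fun i j a => σ i (P j a) : ∀ i, Fin 3 → Fin 2 → ℚ_[p i]), ∀ x ∈ U,
                (∀ i, eval₂ (σ i) (fun r => x i r.1 r.2) F = 0) →
                  x ∈ closure (ratPoints' F p σ)) ∧
              -- and the same with the real place
              ∀ σ₀ : K →+* ℝ,
                ∃ U ∈ nhds ((fun j a => σ₀ (P j a), fun i j a => σ i (P j a)) :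
                  (Fin 3 → Fin 2 → ℝ) × ∀ i, Fin 3 → Fin 2 → ℚ_[p i]), ∀ x ∈ U,
                  eval₂ σ₀ (fun r => x.1 r.1 r.2) F = 0 →
                  (∀ i, eval₂ (σ i) (fun r => x.2 i r.1 r.2) F = 0) →
                    x ∈ closure (ratPoints F p σ₀ σ) := by
  intro K _ _ F hdeg hl hs
  obtain ⟨c, rfl⟩ := exists_form hdeg
  exact final Pool.W335.SA.main Pool.Agent.W12.SA.main Pool.Agent.W493.SA.Chain.main
    Pool.Agent.W101.TriS.Scale.main Pool.Agent.W515.SA.main
    (Pool.Agent.W613.SAReal.main Pool.Agent.W347.SA.main Pool.Agent.W125.SA.Close.main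
      Pool.W335.SA.main)
    (Pool.Agent.W554.SA.main Pool.Agent.W347.SA.main Pool.Agent.W125.SA.Close.main
      Pool.Agent.W493.SA.Seq.main) (nice_of hl hs)

end Pool.Agent.Results.MP_ed3816_nt.WeakApproxTriquadratic
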